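import Pool.Agent.X273.PM58

/-!
# MP_961c17_co, Q1: `scc(G) = 4/3 |E(G)| + T(G)` fails

The graph `G` below is cubic, simple, 3-edge-connected and has 58 vertices.  It has a cycle cover
of length `116 = 4/3 |E(G)|` (seven circuits) but is not coverable by four perfect matchings, so
`T(G) ≥ 1` and `scc(G) < 4/3 |E(G)| + T(G)`.
-/

namespace Pool.Agent.Results.MP_961c17_co.ScatteredCover

open SimpleGraph Finset Pool.Agent.X273.PMGlue Pool.Agent.X273.PM58

section Definitions

variable {V : Type} [Fintype V] [DecidableEq V]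

/-- `G` is 3-edge-connected: at least three edges leave every nonempty proper set of vertices.
(An edge between `X` and its complement is counted once, as the pair (end in `X`, other end).) -/
def ThreeEdgeConnected (G : SimpleGraph V) [DecidableRel G.Adj] : Prop :=
  ∀ X : Finset V, X.Nonempty → X ≠ univ →
    3 ≤ (univ.filter fun p : V × V => p.1 ∈ X ∧ p.2 ∉ X ∧ G.Adj p.1 p.2).card

/-- `H` has four perfect matchings whose union contains every edge. -/
def FourPMCoverable {W : Type} (H : SimpleGraph W) : Prop :=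
  ∃ M : Fin 4 → H.Subgraph, (∀ i, (M i).IsPerfectMatching) ∧
    ∀ a b, H.Adj a b → ∃ i, (M i).Adj a b

/-- The graph `G_U`: every vertex `v ∈ U` is expanded into a clique on the vertices `(v, x)`, `x`
a neighbour of `v` (a triangle if `G` is cubic), and the edge `vx` is attached at `(v, x)`.  A
vertex `v ∉ U` is kept, under the name `(v, v)`. -/
def expand (G : SimpleGraph V) (U : Finset V) :
    SimpleGraph {p : V × V // (p.1 ∉ U ∧ p.2 = p.1) ∨ (p.1 ∈ U ∧ G.Adj p.1 p.2)} where
  Adj p q := (p.1.1 = q.1.1 ∧ p ≠ q) ∨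
    (G.Adj p.1.1 q.1.1 ∧ (p.1.1 ∈ U → p.1.2 = q.1.1) ∧ (q.1.1 ∈ U → q.1.2 = p.1.1))
  symm := ⟨fun p q h => by
    rcases h with ⟨h1, h2⟩ | ⟨h1, h2, h3⟩
    · exact Or.inl ⟨h1.symm, h2.symm⟩
    · exact Or.inr ⟨h1.symm, h3, h2⟩⟩
  loopless := ⟨fun p h => by
    rcases h with ⟨_, h2⟩ | ⟨h1, _⟩
    · exact h2 rfl
    · exact G.irrefl h1⟩

/-- `T(G)`: the least `|U|` such that `G_U` is coverable by four perfect matchings, `⊤` if there
is no such `U`. -/
noncomputable def T (G : SimpleGraph V) : ℕ∞ :=
  ⨅ (U : Finset V) (_ : FourPMCoverable (expand G U)), (U.card : ℕ∞)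

/-- A finite family of cycles of `G` whose union contains every edge. -/
def IsCycleCover (G : SimpleGraph V) (F : List (Σ v : V, G.Walk v v)) : Prop :=
  (∀ C ∈ F, C.2.IsCycle) ∧ ∀ e ∈ G.edgeSet, ∃ C ∈ F, e ∈ C.2.edges

/-- The minimum length of a cycle cover. -/
noncomputable def scc (G : SimpleGraph V) : ℕ :=
  sInf {L | ∃ F : List (Σ v : V, G.Walk v v), IsCycleCover G F ∧
    (F.map fun C => C.2.length).sum = L}

end Definitions

/-! ### The graph -/

/-- Row `v` of the adjacency matrix, as a binary number. -/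
def rows : List ℕ :=
   [562949953429506, 4294969345, 168, 580, 8589934688, 1044, 280, 134217988, 1216,
   35184372089864, 800, 16781314, 70368744187904, 67112961, 4399153807360, 1376256, 4751360,
   281474977497088, 8552448, 2293760, 18907136, 9961472, 549764268032, 6553600, 2199024306176,
   68786601984, 68753039360, 140737756790912, 35030827008, 3489660928, 17716756480,
   13421772800, 36507222018, 19327352848, 44023414784, 21743271936, 137539616768,
   17935783428096, 1786706395136, 9070975123456, 6871947673600, 18691714449408, 9895604666368,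
   22539988369408, 11132555231232, 18084767253660160, 175921860448256, 4573968505765888,
   36591746972516352, 1407374883553281, 146929937842962432, 14636698788954112,
   74450131339968512, 56294995342131200, 153157571702685696, 81346268269379584,
   184647584722190336, 91197892454252544]

/-- Adjacency. -/
def adj (a b : Fin 58) : Bool := (rows.getD a.val 0).testBit b.val

/-- The graph. -/
def G : SimpleGraph (Fin 58) where
  Adj a b := adj a b = true
  symm := ⟨by decide +kernel⟩
  loopless := ⟨by decide +kernel⟩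

instance : DecidableRel G.Adj := fun a b => inferInstanceAs (Decidable (adj a b = true))

theorem adj_iff (a b : Fin 58) : G.Adj a b ↔ adj a b = true := Iff.rfl

theorem adj_symm {a b : Fin 58} (h : adj a b = true) : adj b a = true :=
  (adj_iff b a).1 ((adj_iff a b).2 h).symm

/-- The other ends of these edges. -/
def nbL : List (List (Fin 58)) :=
   [[1, 13, 49], [0, 11, 32], [3, 5, 7], [2, 6, 9], [5, 6, 33], [4, 2, 10], [4, 3, 8], [8, 2,
   27], [7, 6, 10], [10, 3, 45], [9, 5, 8], [12, 1, 24], [11, 13, 46], [0, 12, 26], [25, 30,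
   42], [16, 18, 20], [15, 19, 22], [18, 19, 48], [17, 15, 23], [17, 16, 21], [21, 15, 24],
   [20, 19, 23], [23, 16, 39], [22, 18, 21], [20, 11, 41], [26, 14, 36], [25, 13, 36], [28, 7,
   47], [29, 35, 27], [30, 31, 28], [29, 34, 14], [32, 33, 29], [31, 35, 1], [34, 31, 4], [35,
   33, 30], [34, 32, 28], [37, 26, 25], [38, 44, 36], [39, 40, 37], [38, 43, 22], [41, 42, 38],
   [40, 44, 24], [43, 40, 14], [44, 42, 39], [43, 41, 37], [46, 9, 54], [47, 45, 12], [46, 27,
   52], [49, 55, 17], [50, 48, 0], [51, 57, 49], [52, 53, 50], [51, 56, 47], [54, 55, 51], [53,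
   57, 45], [56, 53, 48], [57, 55, 52], [56, 54, 50]]

/-- Values of a flow on these edges, directed away from the vertex. -/
def pvL : List (List ℤ) :=
   [[-875, -118, 993], [875, -752, -123], [22, -52, 30], [-22, -108, 130], [-28, 661, -633],
   [28, 52, -80], [-661, 108, 553], [-285, -30, 315], [285, -553, 268], [-188, -130, 318],
   [188, 80, -268], [-193, 752, -559], [193, 471, -664], [118, -471, 353], [-741, 164, 577],
   [-263, 100, 163], [263, 62, -325], [551, -181, -370], [-551, -100, 651], [181, -62, -119],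
   [102, -163, 61], [-102, 119, -17], [-634, 325, 309], [634, -651, 17], [-61, 559, -498],
   [-458, 741, -283], [458, -353, -105], [592, -315, -277], [-264, 856, -592], [20, -284, 264],
   [-20, 184, -164], [-554, 270, 284], [554, -677, 123], [-363, -270, 633], [-179, 363, -184],
   [179, 677, -856], [-388, 105, 283], [-484, 96, 388], [-286, -198, 484], [286, 23, -309],
   [18, -216, 198], [-18, -480, 498], [361, 216, -577], [384, -361, -23], [-384, 480, -96],
   [606, -318, -288], [-58, -606, 664], [58, 277, -335], [-280, -90, 370], [713, 280, -993],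
   [-19, 732, -713], [250, -269, 19], [-250, -85, 335], [-69, -200, 269], [69, -357, 288],
   [-290, 200, 90], [-375, 290, 85], [375, 357, -732]]

/-- First ends of the edges with numbers `1, ..., 87`. -/
def srcL : List (Fin 58) :=
   [0, 0, 2, 4, 4, 3, 2, 7, 2, 6, 9, 3, 5, 8, 11, 1, 0, 12, 15, 17, 17, 16, 15, 20, 15, 19, 22,
   16, 18, 21, 20, 11, 25, 14, 13, 29, 31, 34, 33, 31, 32, 29, 30, 28, 28, 27, 14, 1, 7, 4, 38,
   40, 43, 42, 40, 41, 38, 39, 37, 37, 36, 22, 24, 26, 25, 14, 46, 45, 9, 12, 27, 51, 53, 56,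
   55, 53, 54, 51, 52, 50, 50, 49, 48, 48, 47, 45, 17, 0]

/-- Second ends. -/
def tgtL : List (Fin 58) :=
   [0, 1, 3, 5, 6, 6, 5, 8, 7, 8, 10, 9, 10, 10, 12, 11, 13, 13, 16, 18, 19, 19, 18, 21, 20,
   21, 23, 22, 23, 23, 24, 24, 26, 25, 26, 30, 32, 35, 34, 33, 35, 31, 34, 29, 35, 28, 30, 32,
   27, 33, 39, 41, 44, 43, 42, 44, 40, 43, 38, 44, 37, 39, 41, 36, 36, 42, 47, 46, 45, 46, 47,
   52, 54, 57, 56, 55, 57, 53, 56, 51, 57, 50, 49, 55, 52, 54, 48, 49]

/-- A spanning tree. -/
def parL : List (Fin 58) :=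
   [0, 0, 5, 9, 33, 4, 4, 27, 6, 45, 9, 1, 13, 0, 25, 20, 19, 48, 17, 17, 24, 20, 23, 18, 11,
   26, 13, 28, 35, 31, 29, 32, 1, 31, 35, 32, 26, 36, 37, 38, 41, 24, 14, 44, 41, 46, 12, 46,
   49, 0, 49, 50, 51, 51, 57, 48, 57, 50]

/-- Edge number `j` at `v`. -/
def incF (v : Fin 58) (j : Fin 3) : ℕ := (inc v.val).getD j.val 0
/-- Neighbour number `j` of `v`. -/
def nb (v : Fin 58) (j : Fin 3) : Fin 58 := (nbL.getD v.val []).getD j.val 0
/-- Flow on edge number `j` at `v`. -/
def pv (v : Fin 58) (j : Fin 3) : ℤ := (pvL.getD v.val []).getD j.val 0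
/-- First end of an edge. -/
def src (e : ℕ) : Fin 58 := srcL.getD e 0
/-- Second end of an edge. -/
def tgt (e : ℕ) : Fin 58 := tgtL.getD e 0
/-- Parent of a vertex. -/
def par (v : Fin 58) : Fin 58 := parL.getD v.val 0

theorem inc_eq : ∀ v : Fin 58, inc v.val = [incF v 0, incF v 1, incF v 2] := by decide +kernel

theorem inc_pos : ∀ (v : Fin 58) (j : Fin 3), incF v j ≠ 0 := by decide +kernel

theorem inc_ends : ∀ (v : Fin 58) (j : Fin 3),
    (src (incF v j) = v ∧ tgt (incF v j) = nb v j) ∨
      (src (incF v j) = nb v j ∧ tgt (incF v j) = v) := by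
  decide +kernel

theorem nb_adj : ∀ (v : Fin 58) (j : Fin 3), adj v (nb v j) = true := by decide +kernel

theorem adj_nb : ∀ v u : Fin 58, adj v u = true → u = nb v 0 ∨ u = nb v 1 ∨ u = nb v 2 := by
  decide +kernel

theorem nb_ne : ∀ v : Fin 58, nb v 0 ≠ nb v 1 ∧ nb v 0 ≠ nb v 2 ∧ nb v 1 ≠ nb v 2 := by
  decide +kernel

/-! ### There is no covering by four perfect matchings -/

/-- The number with given binary digits. -/
def mk (a b c d : Bool) : ℕ := cond a 1 0 + cond b 2 0 + cond c 4 0 + cond d 8 0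

theorem mk_lt : ∀ a b c d : Bool, mk a b c d < 16 := by decide

/-- Exactly one of three. -/
def ex1 (a b c : Bool) : Bool := (a && !b && !c) || (!a && b && !c) || (!a && !b && c)

theorem tri_of : ∀ a0 b0 c0 a1 b1 c1 a2 b2 c2 a3 b3 c3 : Bool,
    (ex1 a0 b0 c0 && ex1 a1 b1 c1 && ex1 a2 b2 c2 && ex1 a3 b3 c3 &&
      (a0 || a1 || a2 || a3) && (b0 || b1 || b2 || b3) && (c0 || c1 || c2 || c3)) = true →
    [mk a0 a1 a2 a3, mk b0 b1 b2 b3, mk c0 c1 c2 c3] ∈ tri := by
  decide +kernel

open Classical in
/-- The label of an edge. -/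
noncomputable def lab {W : Type} {H : SimpleGraph W} (M : Fin 4 → H.Subgraph)
    (f : Fin 58 → W) (e : ℕ) : ℕ :=
  if e = 0 then 0 else
    mk (decide ((M 0).Adj (f (src e)) (f (tgt e)))) (decide ((M 1).Adj (f (src e)) (f (tgt e))))
      (decide ((M 2).Adj (f (src e)) (f (tgt e)))) (decide ((M 3).Adj (f (src e)) (f (tgt e))))

/-- A graph isomorphic to `G` is not coverable by four perfect matchings. -/
theorem not_coverable {W : Type} (H : SimpleGraph W) (f : Fin 58 → W)
    (hsur : Function.Surjective f) (hinj : Function.Injective f)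
    (hadj : ∀ a b, H.Adj (f a) (f b) ↔ adj a b = true) : ¬ FourPMCoverable H := by
  classical
  rintro ⟨M, hM, hcov⟩
  refine no_labelling (lab M f) ⟨if_pos rfl, ?_, ?_⟩
  · intro e
    unfold lab
    split_ifs
    · norm_num
    · exact mk_lt _ _ _ _
  · intro v hv
    obtain ⟨v, rfl⟩ : ∃ w : Fin 58, w.val = v := ⟨⟨v, hv⟩, rfl⟩
    rw [inc_eq v]
    have hl : ∀ j : Fin 3, lab M f (incF v j) =
        mk (decide ((M 0).Adj (f v) (f (nb v j)))) (decide ((M 1).Adj (f v) (f (nb v j))))
          (decide ((M 2).Adj (f v) (f (nb v j)))) (decide ((M 3).Adj (f v) (f (nb v j)))) := by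
      intro j
      unfold lab
      rw [if_neg (inc_pos v j)]
      rcases inc_ends v j with ⟨h1, h2⟩ | ⟨h1, h2⟩
      · rw [h1, h2]
      · rw [h1, h2]
        simp only [Subgraph.adj_comm _ (f (nb v j)) (f v)]
    have hex : ∀ i : Fin 4, ex1 (decide ((M i).Adj (f v) (f (nb v 0))))
        (decide ((M i).Adj (f v) (f (nb v 1)))) (decide ((M i).Adj (f v) (f (nb v 2)))) = true := by
      intro i
      obtain ⟨x, hx, hu⟩ := Subgraph.isPerfectMatching_iff.1 (hM i) (f v)
      obtain ⟨u, rfl⟩ := hsur x
      have h1 : adj v u = true := (hadj v u).1 ((M i).adj_sub hx)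
      obtain ⟨n01, n02, n12⟩ := nb_ne v
      have key : ∀ j, (M i).Adj (f v) (f (nb v j)) → nb v j = u := fun j hj => hinj (hu _ hj)
      rcases adj_nb v u h1 with rfl | rfl | rfl
      · have k1 : ¬ (M i).Adj (f v) (f (nb v 1)) := fun h => n01 (key 1 h).symm
        have k2 : ¬ (M i).Adj (f v) (f (nb v 2)) := fun h => n02 (key 2 h).symm
        have hx' : (M i).Adj (f v) (f (nb v 0)) := hx
        simp [ex1, k1, k2, hx']
      · have k1 : ¬ (M i).Adj (f v) (f (nb v 0)) := fun h => n01 (key 0 h)
        have k2 : ¬ (M i).Adj (f v) (f (nb v 2)) := fun h => n12 (key 2 h).symm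
        have hx' : (M i).Adj (f v) (f (nb v 1)) := hx
        simp [ex1, k1, k2, hx']
      · have k1 : ¬ (M i).Adj (f v) (f (nb v 0)) := fun h => n02 (key 0 h)
        have k2 : ¬ (M i).Adj (f v) (f (nb v 1)) := fun h => n12 (key 1 h)
        have hx' : (M i).Adj (f v) (f (nb v 2)) := hx
        simp [ex1, k1, k2, hx']
    have hor : ∀ j : Fin 3, (decide ((M 0).Adj (f v) (f (nb v j))) ||
        decide ((M 1).Adj (f v) (f (nb v j))) || decide ((M 2).Adj (f v) (f (nb v j))) ||
        decide ((M 3).Adj (f v) (f (nb v j)))) = true := by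
      intro j
      obtain ⟨i, hi⟩ := hcov (f v) (f (nb v j)) ((hadj v (nb v j)).2 (nb_adj v j))
      fin_cases i
      · have hi' : (M 0).Adj (f v) (f (nb v j)) := hi
        simp [hi']
      · have hi' : (M 1).Adj (f v) (f (nb v j)) := hi
        simp [hi']
      · have hi' : (M 2).Adj (f v) (f (nb v j)) := hi
        simp [hi']
      · have hi' : (M 3).Adj (f v) (f (nb v j)) := hi
        simp [hi']
    have e3 : [incF v 0, incF v 1, incF v 2].map (lab M f) =
        [lab M f (incF v 0), lab M f (incF v 1), lab M f (incF v 2)] := rfl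
    rw [e3, hl 0, hl 1, hl 2]
    apply tri_of
    rw [hex 0, hex 1, hex 2, hex 3, hor 0, hor 1, hor 2]
    rfl

theorem not_coverable_G : ¬ FourPMCoverable G :=
  not_coverable G id Function.surjective_id Function.injective_id fun _ _ => Iff.rfl

theorem not_coverable_expand : ¬ FourPMCoverable (expand G ∅) := by
  refine not_coverable (expand G ∅) (fun v => ⟨(v, v), Or.inl ⟨Finset.notMem_empty v, rfl⟩⟩)
    ?_ ?_ ?_
  · rintro ⟨⟨a, b⟩, h⟩
    rcases h with ⟨_, h⟩ | ⟨h, _⟩
    · exact ⟨a, by simp only [Subtype.mk.injEq, Prod.mk.injEq, true_and]; exact h.symm⟩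
    · exact absurd h (Finset.notMem_empty a)
  · intro a b h
    have := congrArg (fun x => x.1.1) h
    exact this
  · intro a b
    constructor
    · rintro (⟨h1, h2⟩ | ⟨h1, _⟩)
      · exact absurd (by cases (show a = b from h1); rfl) h2
      · exact h1
    · intro h
      exact Or.inr ⟨h, fun h => absurd h (Finset.notMem_empty a),
        fun h => absurd h (Finset.notMem_empty b)⟩

theorem one_le_T : 1 ≤ T G := by
  unfold T
  refine le_iInf fun U => le_iInf fun hU => ?_
  have : U.card ≠ 0 := by
    intro h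
    rw [Finset.card_eq_zero] at h
    subst h
    exact not_coverable_expand hU
  exact_mod_cast Nat.one_le_iff_ne_zero.2 this

/-! ### The graph is 3-edge-connected -/

/-- The flow as an antisymmetric function. -/
def phi (v u : Fin 58) : ℤ :=
  (if nb v 0 = u then pv v 0 else 0) + (if nb v 1 = u then pv v 1 else 0) +
    (if nb v 2 = u then pv v 2 else 0)

theorem phi_anti : ∀ v u : Fin 58, phi v u = - phi u v := by decide +kernel

theorem phi_div : ∀ v : Fin 58, pv v 0 + pv v 1 + pv v 2 = 0 := by decide +kernel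

theorem pv_ne : ∀ (v : Fin 58) (j : Fin 3), pv v j ≠ 0 := by decide +kernel

theorem pv_inj : ∀ (v : Fin 58) (j : Fin 3) (w : Fin 58) (k : Fin 3),
    pv v j + pv w k = 0 → v = nb w k := by
  decide +kernel

theorem phi_nb : ∀ (v : Fin 58) (j : Fin 3), phi v (nb v j) = pv v j := by decide +kernel

theorem par_adj : ∀ v : Fin 58, v = par v ∨ adj v (par v) = true := by decide +kernel

theorem par_root : ∀ v : Fin 58, par^[57] v = 0 := by decide +kernel

theorem phi_sum (v : Fin 58) : ∑ u, phi v u = 0 := by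
  unfold phi
  rw [Finset.sum_add_distrib, Finset.sum_add_distrib]
  simp only [Finset.sum_ite_eq, Finset.mem_univ, if_true]
  exact phi_div v

theorem phi_zero {v u : Fin 58} (h : ¬ adj v u = true) : phi v u = 0 := by
  have h0 : nb v 0 ≠ u := fun e => h (e ▸ nb_adj v 0)
  have h1 : nb v 1 ≠ u := fun e => h (e ▸ nb_adj v 1)
  have h2 : nb v 2 ≠ u := fun e => h (e ▸ nb_adj v 2)
  unfold phi
  rw [if_neg h0, if_neg h1, if_neg h2]; rfl

theorem exists_nb {v u : Fin 58} (h : adj v u = true) : ∃ j, u = nb v j := by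
  rcases adj_nb v u h with h | h | h
  · exact ⟨0, h⟩
  · exact ⟨1, h⟩
  · exact ⟨2, h⟩

/-- The edges leaving `X`. -/
def cutD (X : Finset (Fin 58)) : Finset (Fin 58 × Fin 58) :=
  univ.filter fun p : Fin 58 × Fin 58 => p.1 ∈ X ∧ p.2 ∉ X ∧ G.Adj p.1 p.2

theorem mem_cutD (X : Finset (Fin 58)) (p : Fin 58 × Fin 58) :
    p ∈ cutD X ↔ p.1 ∈ X ∧ p.2 ∉ X ∧ adj p.1 p.2 = true := by
  simp only [cutD, Finset.mem_filter, Finset.mem_univ, true_and, adj_iff]

theorem cut_ge (X : Finset (Fin 58)) (hX : X.Nonempty) (hX' : X ≠ univ)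
    (D : Finset (Fin 58 × Fin 58))
    (hmem : ∀ p : Fin 58 × Fin 58, p ∈ D ↔ p.1 ∈ X ∧ p.2 ∉ X ∧ adj p.1 p.2 = true) :
    3 ≤ D.card := by
  -- the flow over the cut is zero
  have hsum : ∑ p ∈ D, phi p.1 p.2 = 0 := by
    have h1 : ∑ v ∈ X, ∑ u, phi v u = 0 := Finset.sum_eq_zero fun v _ => phi_sum v
    have h2 : ∑ v ∈ X, ∑ u ∈ X, phi v u = 0 := by
      have h3 : ∑ v ∈ X, ∑ u ∈ X, phi v u = - ∑ v ∈ X, ∑ u ∈ X, phi v u := by
        conv_lhs => rw [Finset.sum_comm]
        rw [← Finset.sum_neg_distrib]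
        refine Finset.sum_congr rfl fun v _ => ?_
        rw [← Finset.sum_neg_distrib]
        exact Finset.sum_congr rfl fun u _ => phi_anti u v
      linarith
    have h4 : ∀ v, ∑ u, phi v u = ∑ u ∈ X, phi v u + ∑ u ∈ Xᶜ, phi v u := fun v =>
      (Finset.sum_add_sum_compl X _).symm
    simp only [h4, Finset.sum_add_distrib, h2, zero_add] at h1
    rw [← Finset.sum_product'] at h1
    rw [← h1]
    refine Finset.sum_subset ?_ ?_
    · intro p hp
      rw [hmem] at hp
      rw [Finset.mem_product, Finset.mem_compl]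
      exact ⟨hp.1, hp.2.1⟩
    · intro p hp hp'
      rw [Finset.mem_product, Finset.mem_compl] at hp
      exact phi_zero fun h => hp' ((hmem p).2 ⟨hp.1, hp.2, h⟩)
  by_contra hlt
  push Not at hlt
  have hcard : D.card = 0 ∨ D.card = 1 ∨ D.card = 2 := by omega
  rcases hcard with h0 | h0 | h0
  · rw [Finset.card_eq_zero] at h0
    have inv : ∀ v : Fin 58, v ∈ X ↔ par v ∈ X := by
      intro v
      rcases par_adj v with h | h
      · rw [← h]
      · constructor
        · intro hv
          by_contra hn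
          have : (v, par v) ∈ D := (hmem _).2 ⟨hv, hn, h⟩
          rw [h0] at this
          exact absurd this (Finset.notMem_empty _)
        · intro hv
          by_contra hn
          have : (par v, v) ∈ D := (hmem _).2 ⟨hv, hn, adj_symm h⟩
          rw [h0] at this
          exact absurd this (Finset.notMem_empty _)
    have inv2 : ∀ (k : ℕ) (v : Fin 58), v ∈ X ↔ par^[k] v ∈ X := by
      intro k
      induction k with
      | zero => intro v; exact Iff.rfl
      | succ k ih => intro v; rw [Function.iterate_succ_apply, inv v]; exact ih _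
    have inv3 : ∀ v, v ∈ X ↔ (0 : Fin 58) ∈ X := fun v => by rw [inv2 57 v, par_root]
    obtain ⟨a, ha⟩ := hX
    apply hX'
    ext v
    simp only [Finset.mem_univ, iff_true]
    exact (inv3 v).2 ((inv3 a).1 ha)
  · obtain ⟨p, hp⟩ := Finset.card_eq_one.1 h0
    rw [hp, Finset.sum_singleton] at hsum
    have hpD : p ∈ D := by rw [hp]; exact Finset.mem_singleton_self p
    obtain ⟨_, _, ha⟩ := (hmem p).1 hpD
    obtain ⟨j, hj⟩ := exists_nb ha
    rw [hj, phi_nb] at hsum
    exact pv_ne _ _ hsum
  · obtain ⟨p, q, hpq, hp⟩ := Finset.card_eq_two.1 h0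
    rw [hp, Finset.sum_pair hpq] at hsum
    have hpD : p ∈ D := by rw [hp]; simp
    have hqD : q ∈ D := by rw [hp]; simp
    obtain ⟨hp1, _, ha⟩ := (hmem p).1 hpD
    obtain ⟨_, hq2, hb⟩ := (hmem q).1 hqD
    obtain ⟨j, hj⟩ := exists_nb ha
    obtain ⟨k, hk⟩ := exists_nb hb
    rw [hj, phi_nb, hk, phi_nb] at hsum
    have := pv_inj _ _ _ _ hsum
    rw [← hk] at this
    rw [this] at hp1
    exact hq2 hp1

theorem three_edge_connected : ThreeEdgeConnected G := fun X hX hX' =>
  cut_ge X hX hX' (cutD X) (mem_cutD X)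

/-! ### A cycle cover of length 116 -/

theorem adj' {a b : Fin 58} (h : adj a b = true) : G.Adj a b := h

/-- Circuit 0 of the cover. -/
def W0 : G.Walk 0 0 :=
  .cons (v := 1) (adj' (by decide +kernel)) <| .cons (v := 11) (adj' (by decide +kernel)) <|
  .cons (v := 24) (adj' (by decide +kernel)) <| .cons (v := 20) (adj' (by decide +kernel)) <|
  .cons (v := 15) (adj' (by decide +kernel)) <| .cons (v := 16) (adj' (by decide +kernel)) <|
  .cons (v := 22) (adj' (by decide +kernel)) <| .cons (v := 39) (adj' (by decide +kernel)) <|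
  .cons (v := 38) (adj' (by decide +kernel)) <| .cons (v := 40) (adj' (by decide +kernel)) <|
  .cons (v := 41) (adj' (by decide +kernel)) <| .cons (v := 44) (adj' (by decide +kernel)) <|
  .cons (v := 37) (adj' (by decide +kernel)) <| .cons (v := 36) (adj' (by decide +kernel)) <|
  .cons (v := 25) (adj' (by decide +kernel)) <| .cons (v := 26) (adj' (by decide +kernel)) <|
  .cons (v := 13) (adj' (by decide +kernel)) <|
  .cons (adj' (by decide +kernel)) .nil

/-- Circuit 1 of the cover. -/
def W1 : G.Walk 4 4 :=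
  .cons (v := 5) (adj' (by decide +kernel)) <| .cons (v := 10) (adj' (by decide +kernel)) <|
  .cons (v := 9) (adj' (by decide +kernel)) <| .cons (v := 45) (adj' (by decide +kernel)) <|
  .cons (v := 54) (adj' (by decide +kernel)) <| .cons (v := 57) (adj' (by decide +kernel)) <|
  .cons (v := 56) (adj' (by decide +kernel)) <| .cons (v := 55) (adj' (by decide +kernel)) <|
  .cons (v := 48) (adj' (by decide +kernel)) <| .cons (v := 17) (adj' (by decide +kernel)) <|
  .cons (v := 19) (adj' (by decide +kernel)) <| .cons (v := 21) (adj' (by decide +kernel)) <|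
  .cons (v := 20) (adj' (by decide +kernel)) <| .cons (v := 24) (adj' (by decide +kernel)) <|
  .cons (v := 41) (adj' (by decide +kernel)) <| .cons (v := 44) (adj' (by decide +kernel)) <|
  .cons (v := 43) (adj' (by decide +kernel)) <| .cons (v := 42) (adj' (by decide +kernel)) <|
  .cons (v := 40) (adj' (by decide +kernel)) <| .cons (v := 38) (adj' (by decide +kernel)) <|
  .cons (v := 37) (adj' (by decide +kernel)) <| .cons (v := 36) (adj' (by decide +kernel)) <|
  .cons (v := 26) (adj' (by decide +kernel)) <| .cons (v := 25) (adj' (by decide +kernel)) <|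
  .cons (v := 14) (adj' (by decide +kernel)) <| .cons (v := 30) (adj' (by decide +kernel)) <|
  .cons (v := 29) (adj' (by decide +kernel)) <| .cons (v := 28) (adj' (by decide +kernel)) <|
  .cons (v := 35) (adj' (by decide +kernel)) <| .cons (v := 34) (adj' (by decide +kernel)) <|
  .cons (v := 33) (adj' (by decide +kernel)) <|
  .cons (adj' (by decide +kernel)) .nil

/-- Circuit 2 of the cover. -/
def W2 : G.Walk 4 4 :=
  .cons (v := 6) (adj' (by decide +kernel)) <| .cons (v := 8) (adj' (by decide +kernel)) <|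
  .cons (v := 7) (adj' (by decide +kernel)) <| .cons (v := 27) (adj' (by decide +kernel)) <|
  .cons (v := 47) (adj' (by decide +kernel)) <| .cons (v := 52) (adj' (by decide +kernel)) <|
  .cons (v := 56) (adj' (by decide +kernel)) <| .cons (v := 55) (adj' (by decide +kernel)) <|
  .cons (v := 53) (adj' (by decide +kernel)) <| .cons (v := 51) (adj' (by decide +kernel)) <|
  .cons (v := 50) (adj' (by decide +kernel)) <| .cons (v := 49) (adj' (by decide +kernel)) <|
  .cons (v := 48) (adj' (by decide +kernel)) <| .cons (v := 17) (adj' (by decide +kernel)) <|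
  .cons (v := 18) (adj' (by decide +kernel)) <| .cons (v := 23) (adj' (by decide +kernel)) <|
  .cons (v := 22) (adj' (by decide +kernel)) <| .cons (v := 39) (adj' (by decide +kernel)) <|
  .cons (v := 43) (adj' (by decide +kernel)) <| .cons (v := 42) (adj' (by decide +kernel)) <|
  .cons (v := 14) (adj' (by decide +kernel)) <| .cons (v := 30) (adj' (by decide +kernel)) <|
  .cons (v := 34) (adj' (by decide +kernel)) <| .cons (v := 35) (adj' (by decide +kernel)) <|
  .cons (v := 32) (adj' (by decide +kernel)) <| .cons (v := 31) (adj' (by decide +kernel)) <|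
  .cons (v := 33) (adj' (by decide +kernel)) <|
  .cons (adj' (by decide +kernel)) .nil

/-- Circuit 3 of the cover. -/
def W3 : G.Walk 2 2 :=
  .cons (v := 3) (adj' (by decide +kernel)) <| .cons (v := 6) (adj' (by decide +kernel)) <|
  .cons (v := 8) (adj' (by decide +kernel)) <| .cons (v := 10) (adj' (by decide +kernel)) <|
  .cons (v := 5) (adj' (by decide +kernel)) <|
  .cons (adj' (by decide +kernel)) .nil

/-- Circuit 4 of the cover. -/
def W4 : G.Walk 2 2 :=
  .cons (v := 3) (adj' (by decide +kernel)) <| .cons (v := 9) (adj' (by decide +kernel)) <|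
  .cons (v := 45) (adj' (by decide +kernel)) <| .cons (v := 46) (adj' (by decide +kernel)) <|
  .cons (v := 12) (adj' (by decide +kernel)) <| .cons (v := 11) (adj' (by decide +kernel)) <|
  .cons (v := 1) (adj' (by decide +kernel)) <| .cons (v := 32) (adj' (by decide +kernel)) <|
  .cons (v := 31) (adj' (by decide +kernel)) <| .cons (v := 29) (adj' (by decide +kernel)) <|
  .cons (v := 28) (adj' (by decide +kernel)) <| .cons (v := 27) (adj' (by decide +kernel)) <|
  .cons (v := 7) (adj' (by decide +kernel)) <|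
  .cons (adj' (by decide +kernel)) .nil

/-- Circuit 5 of the cover. -/
def W5 : G.Walk 0 0 :=
  .cons (v := 13) (adj' (by decide +kernel)) <| .cons (v := 12) (adj' (by decide +kernel)) <|
  .cons (v := 46) (adj' (by decide +kernel)) <| .cons (v := 47) (adj' (by decide +kernel)) <|
  .cons (v := 52) (adj' (by decide +kernel)) <| .cons (v := 51) (adj' (by decide +kernel)) <|
  .cons (v := 53) (adj' (by decide +kernel)) <| .cons (v := 54) (adj' (by decide +kernel)) <|
  .cons (v := 57) (adj' (by decide +kernel)) <| .cons (v := 50) (adj' (by decide +kernel)) <|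
  .cons (v := 49) (adj' (by decide +kernel)) <|
  .cons (adj' (by decide +kernel)) .nil

/-- Circuit 6 of the cover. -/
def W6 : G.Walk 15 15 :=
  .cons (v := 16) (adj' (by decide +kernel)) <| .cons (v := 19) (adj' (by decide +kernel)) <|
  .cons (v := 21) (adj' (by decide +kernel)) <| .cons (v := 23) (adj' (by decide +kernel)) <|
  .cons (v := 18) (adj' (by decide +kernel)) <|
  .cons (adj' (by decide +kernel)) .nil

theorem isCycle_of {V : Type} [DecidableEq V] {H : SimpleGraph V} {u : V} {p : H.Walk u u}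
    (h : (decide p.edges.Nodup && decide (p.length ≠ 0) && decide p.support.tail.Nodup) = true) :
    p.IsCycle := by
  simp only [Bool.and_eq_true, decide_eq_true_eq] at h
  rw [Walk.isCycle_def, Walk.isTrail_def]
  refine ⟨h.1.1, ?_, h.2⟩
  rintro rfl
  exact h.1.2 rfl

/-- The seven circuits. -/
def cov : List (Σ v : Fin 58, G.Walk v v) := [⟨0, W0⟩, ⟨4, W1⟩, ⟨4, W2⟩, ⟨2, W3⟩, ⟨2, W4⟩, ⟨0, W5⟩, ⟨15, W6⟩]

theorem cov_ok : IsCycleCover G cov := by
  constructor
  · intro C hC
    simp only [cov, List.mem_cons, List.not_mem_nil, or_false] at hC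
    rcases hC with rfl | rfl | rfl | rfl | rfl | rfl | rfl
    · exact isCycle_of (p := W0) (by decide +kernel)
    · exact isCycle_of (p := W1) (by decide +kernel)
    · exact isCycle_of (p := W2) (by decide +kernel)
    · exact isCycle_of (p := W3) (by decide +kernel)
    · exact isCycle_of (p := W4) (by decide +kernel)
    · exact isCycle_of (p := W5) (by decide +kernel)
    · exact isCycle_of (p := W6) (by decide +kernel)
  · have key : ∀ a b : Fin 58, adj a b = true →
        (cov.any fun C => decide (s(a, b) ∈ C.2.edges)) = true := by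
      decide +kernel
    intro e he
    induction e using Sym2.ind with
    | _ a b =>
      have := key a b he
      rw [List.any_eq_true] at this
      obtain ⟨C, hC, h⟩ := this
      exact ⟨C, hC, of_decide_eq_true h⟩

theorem scc_le : scc G ≤ 116 := Nat.sInf_le ⟨cov, cov_ok, by decide +kernel⟩

theorem degree : ∀ v, G.degree v = 3 := by decide +kernel

theorem card_edges : G.edgeFinset.card = 87 := by
  have h := G.sum_degrees_eq_twice_card_edges
  simp only [degree, Finset.sum_const, Finset.card_univ, Fintype.card_fin, smul_eq_mul] at h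
  omega

/-- **Disproof of Q1 of MP_961c17_co.**  There is a 3-edge-connected cubic simple graph `G` with
58 vertices that has a cycle cover of length `4/3 |E(G)|` but is not coverable by four perfect
matchings.  Hence `T(G) ≥ 1` and `scc(G) < 4/3 |E(G)| + T(G)`, where `T(G)` may be `⊤`. -/
theorem result : ∃ (G : SimpleGraph (Fin 58)) (_ : DecidableRel G.Adj),
    (∀ v, G.degree v = 3) ∧ ThreeEdgeConnected G ∧
    (∃ F, IsCycleCover G F ∧ 3 * (F.map fun C => C.2.length).sum = 4 * G.edgeFinset.card) ∧
    ¬ FourPMCoverable G ∧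
    1 ≤ T G ∧
    ((3 * scc G : ℕ) : ℕ∞) < ((4 * G.edgeFinset.card : ℕ) : ℕ∞) + 3 * T G := by
  refine ⟨G, inferInstance, degree, three_edge_connected, ⟨cov, cov_ok, ?_⟩, not_coverable_G,
    one_le_T, ?_⟩
  · rw [card_edges]; decide +kernel
  · have h1 : ((3 * scc G : ℕ) : ℕ∞) ≤ ((4 * G.edgeFinset.card : ℕ) : ℕ∞) := by
      rw [card_edges]
      exact_mod_cast (by have := scc_le; omega : 3 * scc G ≤ 4 * 87)
    have h2 : (3 : ℕ∞) ≤ 3 * T G := by
      calc (3 : ℕ∞) = 3 * 1 := by norm_num
        _ ≤ 3 * T G := mul_le_mul_right one_le_T 3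
    have h3 : ((4 * G.edgeFinset.card : ℕ) : ℕ∞) <
        ((4 * G.edgeFinset.card : ℕ) : ℕ∞) + 3 := by
      exact_mod_cast (by omega : 4 * G.edgeFinset.card < 4 * G.edgeFinset.card + 3)
    exact lt_of_le_of_lt h1 (lt_of_lt_of_le h3 (by gcongr))

end Pool.Agent.Results.MP_961c17_co.ScatteredCover
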