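import Pool.Agent.H141.Tri56.Ext
import Pool.Agent.H141.Tri56.Conn
import Pool.Agent.H141.Tri56.Core

set_option autoImplicit false

/-! A 3-edge-connected cubic graph `G` on 56 vertices with `scc(G) < (4/3)|E(G)| + T(G)`. -/

namespace Pool.Agent.Results.MP_961c17_co.SccBelowT

open Pool.Agent.H141.Tri56

open Classical in
lemma T_ge : (3 : ℕ∞) ≤ triangleNumber G := by
  unfold triangleNumber
  refine le_iInf fun U => le_iInf fun hU => ?_
  obtain ⟨M, hM, hc⟩ := hU
  have hNN : ∀ v w, G.Adj v w ↔ w = nbr v 0 ∨ w = nbr v 1 ∨ w = nbr v 2 := adj_iff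
  -- the indicator of the edge `e` in the `i`-th matching
  set x : Fin 4 → Fin 84 → ℕ := fun i e => ind (Au M i (epA e) (epB e)) with hx
  have hxi : ∀ i v k, x i (inc v k) = ind (Au M i v (nbr v k)) := by
    intro i v k
    simp only [hx]
    rcases ep_inc v k with ⟨h1, h2⟩ | ⟨h1, h2⟩
    · rw [h1, h2]
    · rw [h1, h2, Au_symm M i (nbr v k) v]
  have hv0 := fun v => vert hM hc (hNN v) (nbr_distinct v).1 (nbr_distinct v).2.1
    (nbr_distinct v).2.2
  have hv1 := fun v => vert hM hc (a := nbr v 1) (b := nbr v 0) (c := nbr v 2) (v := v)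
    (fun w => by rw [hNN v w]; tauto) (nbr_distinct v).1.symm (nbr_distinct v).2.2
    (nbr_distinct v).2.1
  have hv2 := fun v => vert hM hc (a := nbr v 2) (b := nbr v 0) (c := nbr v 1) (v := v)
    (fun w => by rw [hNN v w]; tauto) (nbr_distinct v).2.1.symm (nbr_distinct v).2.2.symm
    (nbr_distinct v).1
  have hb : ∀ e, 1 ≤ x 0 e + x 1 e + x 2 e + x 3 e ∧ x 0 e + x 1 e + x 2 e + x 3 e ≤ 2 := by
    intro e
    obtain ⟨k, hk⟩ := inc_surj e
    rw [← hk]
    simp only [hxi]
    fin_cases k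
    · exact (hv0 _).2.2
    · exact (hv1 _).2.2
    · exact (hv2 _).2.2
  have hsv : ∀ i v, sv (x i) v = ind (Au M i v (nbr v 0)) + ind (Au M i v (nbr v 1))
      + ind (Au M i v (nbr v 2)) := by
    intro i v
    unfold sv
    rw [hxi, hxi, hxi]
  have hfin : U.Finite := Set.toFinite U
  have := core x (fun i e => ind_le _) (fun i v => by rw [hsv]; exact (hv0 v).1 i)
    (fun e => (hb e).1) (fun e => (hb e).2) hfin.toFinset (fun v hv i => by
      rw [hsv]
      exact (hv0 v).2.1 (fun h => hv (hfin.mem_toFinset.2 h)) i)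
  rw [hfin.encard_eq_coe_toFinset_card]
  exact_mod_cast this

lemma scc_le : scc G ≤ 114 := by
  obtain ⟨F, h1, h2, h3⟩ := fam_exists covL covL_ok
  have hF : IsCycleCover G F := by
    refine ⟨h1, ?_⟩
    intro e he
    induction e with
    | _ x y =>
      obtain ⟨k, hk⟩ : ∃ k, nbr x k = y := he
      obtain ⟨p, hp, hmem⟩ := covL_covers x k
      obtain ⟨c, hc, hce⟩ := h2 p hp
      refine ⟨c, hc, ?_⟩
      rw [hce, ← hk]
      exact hmem
  have hlen : coverLength F = 114 := by
    unfold coverLength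
    rw [h3, covL_len]
  calc scc G ≤ (coverLength F : ℕ∞) := iInf_le_of_le F (iInf_le _ hF)
    _ = 114 := by rw [hlen]; rfl

lemma edge_card : G.edgeSet.encard = 84 := by
  have h : G.edgeSet = (fun a : Fin 84 => epS a) '' Set.univ := by
    ext e
    constructor
    · intro he
      obtain ⟨a, ha⟩ := mem_edgeSet e he
      exact ⟨a, trivial, ha.symm⟩
    · rintro ⟨a, _, rfl⟩
      exact epS_mem a
  rw [h, Function.Injective.encard_image (fun a b hab => epS_inj hab), Set.encard_univ]
  simp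

lemma G_cubic (v : Fin 56) : (G.neighborSet v).ncard = 3 := by
  have : G.neighborSet v = {nbr v 0, nbr v 1, nbr v 2} := by
    ext w
    rw [SimpleGraph.mem_neighborSet, adj_iff]
    simp
  rw [this]
  obtain ⟨h1, h2, h3⟩ := nbr_distinct v
  exact Set.ncard_eq_three.2 ⟨_, _, _, h1, h2, h3, rfl⟩

/-- There is a 3-edge-connected cubic (simple) graph `G` with
`scc(G) < (4/3) |E(G)| + T(G)`; here both sides are multiplied by 3. -/
theorem result : ∃ (V : Type) (_ : Fintype V) (G : SimpleGraph V),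
    (∀ v, (G.neighborSet v).ncard = 3) ∧ ThreeEdgeConnected G ∧
    3 * scc G < 4 * G.edgeSet.encard + 3 * triangleNumber G := by
  refine ⟨Fin 56, inferInstance, G, G_cubic, G_three, ?_⟩
  rw [edge_card]
  calc 3 * scc G ≤ 3 * 114 := by gcongr; exact scc_le
    _ < 4 * 84 + 3 * 3 := by norm_num
    _ ≤ 4 * 84 + 3 * triangleNumber G := by gcongr; exact T_ge

end Pool.Agent.Results.MP_961c17_co.SccBelowT
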